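import Pool.Agent.H93.CP.Targets

/-!
# Targets of the board cpt_modules: closed subgroups of the homeomorphism group of the Cantor space
-/

set_option autoImplicit false

open Set Filter Topology

namespace Pool.Agent.H93.CP

/-- A copy of the Cantor space outside a countable set. -/
def T_RMC : Prop :=
  ∀ A : Set (ℕ → Bool), A.Countable →
    ∃ j : (ℕ → Bool) → (ℕ → Bool), Continuous j ∧ Function.Injective j ∧ ∀ u, j u ∉ A

/-- A non-archimedean Polish group acts on a countable compact space in which the stabilizers of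
isolated points are arbitrarily small. -/
def T_EMB : Prop :=
  ∀ (Γ : Type) [TopologicalSpace Γ] [Group Γ] [IsTopologicalGroup Γ] [PolishSpace Γ], NonArch Γ →
    ∃ (Z : Type) (_ : TopologicalSpace Z) (_ : CompactSpace Z) (_ : T2Space Z)
      (_ : SecondCountableTopology Z) (_ : TotallyDisconnectedSpace Z) (_ : Countable Z)
      (_ : MulAction Γ Z), Continuous (fun p : Γ × Z => p.1 • p.2) ∧
      ∀ V ∈ 𝓝 (1 : Γ), ∃ z : Z, IsOpen ({z} : Set Z) ∧ ∀ γ : Γ, γ • z = z → γ ∈ V

/-- A Polish subgroup of a Polish group is closed. -/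
def T_PCL : Prop :=
  ∀ (Γ L : Type) [TopologicalSpace Γ] [Group Γ] [IsTopologicalGroup Γ] [PolishSpace Γ]
    [TopologicalSpace L] [Group L] [IsTopologicalGroup L] [PolishSpace L] (φ : Γ →* L),
    IsInducing φ → Function.Injective φ → IsClosed (φ.range : Set L)

/-- From a non-archimedean group acting on a compact zero-dimensional space to a closed subgroup of
the homeomorphism group of the Cantor space. -/
def T_NCA : Prop :=
  ∀ (K Γ : Type) [TopologicalSpace K] [CompactSpace K] [T2Space K] [SecondCountableTopology K]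
    [TotallyDisconnectedSpace K] [Nonempty K] [MeasurableSpace K] [BorelSpace K]
    [TopologicalSpace Γ] [Group Γ] [IsTopologicalGroup Γ]
    [PolishSpace Γ] [MulAction Γ K],
    Continuous (fun p : Γ × K => p.1 • p.2) → NonArch Γ →
    ∃ Δ : Subgroup (HC (ℕ → Bool) Unit), IsClosed (Δ : Set (HC (ℕ → Bool) Unit)) ∧
      (CMO Δ (ℕ → Bool) ↔ CMO Γ K) ∧ (PMO Δ (ℕ → Bool) ↔ PMO Γ K)

/-- Closed subgroups of the homeomorphism group of the Cantor space are the whole conjecture for
non-archimedean groups. -/
def T_NAR : Prop :=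
  ∀ (G X : Type) [Group G] [TopologicalSpace G] [IsTopologicalGroup G] [PolishSpace G]
    [MeasurableSpace G] [BorelSpace G] [MeasurableSpace X] [StandardBorelSpace X] [MulAction G X]
    [MeasurableSMul₂ G X], NonArch G →
    ∃ Δ : Subgroup (HC (ℕ → Bool) Unit), IsClosed (Δ : Set (HC (ℕ → Bool) Unit)) ∧
      (CMO Δ (ℕ → Bool) ↔ CMO G X) ∧ (PMO Δ (ℕ → Bool) ↔ PMO G X)

end Pool.Agent.H93.CP
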