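import Pool.Agent.H1.CPT.CGD
import Pool.Agent.H1.CPT.EMB
import Pool.Agent.H1.CPT.SWG
import Pool.Agent.H10.CPT.LMH
import Pool.Agent.H10.CPT.ZIG
import Pool.Agent.H11.CPT.BRO
import Pool.Agent.H12.CPT.NES
import Pool.Agent.H13.CPT.TPS
import Pool.Agent.H17.CPT.CEF
import Pool.Agent.H17.CPT.LIM
import Pool.Agent.H17.CPT.LMC
import Pool.Agent.H19.CPT.DCS
import Pool.Agent.H19.CPT.ORB
import Pool.Agent.H19.CPT.TPB
import Pool.Agent.H23.CPT.ONE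
import Pool.Agent.H23.CPT.STP
import Pool.Agent.H23.CPT.SYS
import Pool.Agent.H27.CPT.PTR
import Pool.Agent.H27.CPT.STM
import Pool.Agent.H33.CPT.HCO
import Pool.Agent.H33.CPT.HPO
import Pool.Agent.H33.CPT.PRP
import Pool.Agent.H34.CP.GCL
import Pool.Agent.H34.CP.PBD
import Pool.Agent.H34.CP.PCO
import Pool.Agent.H35.CPT.DCO
import Pool.Agent.H4.CPT.HNA
import Pool.Agent.H4.CPT.HTG
import Pool.Agent.H4.CPT.NCA
import Pool.Agent.H40.CPT.PMK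
import Pool.Agent.H56.CPT.PTC
import Pool.Agent.H56.CPT.PTS
import Pool.Agent.H59.CPT.SML
import Pool.Agent.H59.CPT.TPA
import Pool.Agent.H60.CPT.NAR
import Pool.Agent.H60.CPT.PCL
import Pool.Agent.H61.CPT.PTU
import Pool.Agent.H63.CPT.CIN
import Pool.Agent.H66.CPT.CME
import Pool.Agent.H66.CPT.TRC
import Pool.Agent.H67.CP.SCH
import Pool.Agent.H67.CP.XOR
import Pool.Agent.H70.CPT.CCL
import Pool.Agent.H75.CPT.PWD
import Pool.Agent.H75.CPT.SWP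
import Pool.Agent.H89.CPT.SQD
import Pool.Agent.H93.CPT.TOP
import Pool.Agent.H95.CPT.CAN
import Pool.Agent.H95.CPT.RMC
import Pool.Agent.H98.CP.GOO
import Pool.Agent.H93.CP.Targets2

/-!
# All rows of the board cpt_modules
-/

set_option autoImplicit false

namespace Pool.Agent.H93.CP

theorem r_BRO : T_BRO := Pool.Agent.H11.CPT.pf_BRO

theorem r_CEF : T_CEF := Pool.Agent.H17.CPT.pf_CEF

theorem r_CGD : T_CGD := Pool.Agent.H1.CPT.pf_CGD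

theorem r_CIN : T_CIN := Pool.Agent.H63.CPT.pf_CIN

theorem r_CME : T_CME := Pool.Agent.H66.CPT.pf_CME

theorem r_DCS : T_DCS := Pool.Agent.H19.CPT.pf_DCS

theorem r_EMB : T_EMB := Pool.Agent.H1.CPT.pf_EMB

theorem r_HCO : T_HCO := Pool.Agent.H33.CPT.pf_HCO

theorem r_HNA : T_HNA := Pool.Agent.H4.CPT.pf_HNA

theorem r_HOM : T_HOM := Pool.Agent.H67.CP.pf_HOM r_HCO

theorem r_HPO : T_HPO := Pool.Agent.H33.CPT.pf_HPO

theorem r_HTG : T_HTG := Pool.Agent.H4.CPT.pf_HTG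

theorem r_NES : T_NES := Pool.Agent.H12.CPT.pf_NES

theorem r_PCL : T_PCL := Pool.Agent.H60.CPT.pf_PCL

theorem r_PCO : T_PCO := Pool.Agent.H34.CP.pf_PCO

theorem r_PWD : T_PWD := Pool.Agent.H75.CPT.pf_PWD

theorem r_RMC : T_RMC := Pool.Agent.H95.CPT.pf_RMC

theorem r_SCH : T_SCH := Pool.Agent.H67.CP.pf_SCH

theorem r_SML : T_SML := Pool.Agent.H59.CPT.pf_SML r_NES r_PWD

theorem r_STM : T_STM := Pool.Agent.H27.CPT.pf_STM

theorem r_STP : T_STP := Pool.Agent.H23.CPT.pf_STP r_NES r_SML r_PWD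

theorem r_TPS : T_TPS := Pool.Agent.H13.CPT.pf_TPS

theorem r_XOR : T_XOR := Pool.Agent.H67.CP.pf_XOR r_HCO

theorem r_CAN : T_CAN := Pool.Agent.H95.CPT.pf_CAN r_BRO r_HTG r_HPO r_HNA r_XOR

theorem r_CCL : T_CCL := Pool.Agent.H70.CPT.pf_CCL r_CME r_STM

theorem r_DCO : T_DCO := Pool.Agent.H35.CPT.pf_DCO r_HOM r_HTG r_HPO r_HNA r_XOR

theorem r_LMC : T_LMC := Pool.Agent.H17.CPT.pf_LMC r_PWD r_PCO

theorem r_NCA : T_NCA := Pool.Agent.H4.CPT.NCA.pf_NCA r_EMB r_PCL r_BRO r_HTG r_HPO r_HCO r_XOR r_RMC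

theorem r_PBD : T_PBD := Pool.Agent.H34.CP.pf_PBD r_PWD

theorem r_PMK : T_PMK := Pool.Agent.H40.CPT.PMK.pf_PMK r_PWD

theorem r_PRP : T_PRP := Pool.Agent.H33.CPT.pf_PRP r_PWD

theorem r_PTC : T_PTC := Pool.Agent.H56.CPT.pf_PTC r_SML r_NES r_PWD

theorem r_PTR : T_PTR := Pool.Agent.H27.CPT.pf_PTR r_NES r_PWD

theorem r_PTS : T_PTS := Pool.Agent.H56.CPT.pf_PTS r_NES r_PWD r_PMK

theorem r_PTU : T_PTU := Pool.Agent.H61.CPT.pf_PTU r_NES r_PWD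

theorem r_SWG : T_SWG := Pool.Agent.H1.CPT.pf_SWG r_PRP

theorem r_SWP : T_SWP := Pool.Agent.H75.CPT.pf_SWP r_PRP r_PWD r_PCO

theorem r_TOP : T_TOP := Pool.Agent.H93.CPT.pf_TOP r_TPS r_STM

theorem r_ZIG : T_ZIG := Pool.Agent.H10.CPT.pf_ZIG r_STP r_NES r_PWD r_PMK

theorem r_GCL : T_GCL := Pool.Agent.H34.CP.pf_GCL r_HTG r_HPO r_PCO r_PBD

theorem r_GOO : T_GOO := Pool.Agent.H98.CP.pf_GOO r_DCS r_TOP r_CME r_CGD r_CIN r_CEF r_CCL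

theorem r_LMH : T_LMH := Pool.Agent.H10.CPT.pf_LMH r_PWD r_PRP r_PCO

theorem r_SQD : T_SQD := Pool.Agent.H89.CPT.pf_SQD r_PWD r_PRP r_SWP r_SWG

theorem r_SYS : T_SYS := Pool.Agent.H23.CPT.pf_SYS r_GOO r_SCH r_NES r_PTU r_PTR r_PTC r_PTS r_ZIG

theorem r_LIM : T_LIM := Pool.Agent.H17.CPT.pf_LIM r_SQD r_LMH r_LMC r_PWD

theorem r_ORB : T_ORB := Pool.Agent.H19.CPT.pf_ORB r_LIM

theorem r_TPA : T_TPA := Pool.Agent.H59.CPT.pf_TPA r_PCO r_PBD r_ORB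

theorem r_TPB : T_TPB := Pool.Agent.H19.CPT.pf_TPB r_PCO r_PBD r_ORB

theorem r_TRC : T_TRC := Pool.Agent.H66.CPT.pf_TRC r_PBD r_ORB

theorem r_NAR : T_NAR := Pool.Agent.H60.CPT.pf_NAR r_SYS r_PCO r_HTG r_HPO r_HNA r_GCL r_TRC r_TPA r_TPB r_NCA r_XOR

theorem r_ONE : T_ONE := Pool.Agent.H23.CPT.pf_ONE r_SYS r_PCO r_HTG r_HPO r_HNA r_GCL r_TRC r_TPA r_TPB r_CAN r_XOR

end Pool.Agent.H93.CP
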