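import Mathlib

/-!
# Compact spaces and double cosets are the whole topological Vaught conjecture: definitions
-/

set_option autoImplicit false

open Set Filter Topology

namespace Pool.Agent.H93.CP

/-! ### The groups `HC K G` -/

/-- Pairs of a homeomorphism of `K` and a continuous map `K → G`. -/
@[ext] structure HC (K G : Type) [TopologicalSpace K] [TopologicalSpace G] where
  h : K ≃ₜ K
  c : C(K, G)

section HC

variable {K G : Type} [TopologicalSpace K] [TopologicalSpace G]

/-- The topology of `HC K G`: uniform convergence of `h`, `h⁻¹` and `c` (compact-open). -/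
instance HC.top : TopologicalSpace (HC K G) :=
  TopologicalSpace.induced (fun a : HC K G =>
    ((⟨a.h, a.h.continuous⟩ : C(K, K)), (⟨a.h.symm, a.h.symm.continuous⟩ : C(K, K)), a.c))
    inferInstance

variable [Group G] [IsTopologicalGroup G]

instance HC.instMul : Mul (HC K G) :=
  ⟨fun a b => ⟨b.h.trans a.h, a.c.comp ⟨b.h, b.h.continuous⟩ * b.c⟩⟩

instance HC.instOne : One (HC K G) := ⟨⟨Homeomorph.refl K, 1⟩⟩

instance HC.instInv : Inv (HC K G) :=
  ⟨fun a => ⟨a.h.symm, (a.c.comp ⟨a.h.symm, a.h.symm.continuous⟩)⁻¹⟩⟩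

@[simp] lemma HC.mul_h (a b : HC K G) (y : K) : (a * b).h y = a.h (b.h y) := rfl

@[simp] lemma HC.mul_c (a b : HC K G) (y : K) : (a * b).c y = a.c (b.h y) * b.c y := rfl

omit [IsTopologicalGroup G] in
@[simp] lemma HC.one_h (y : K) : (1 : HC K G).h y = y := rfl

omit [IsTopologicalGroup G] in
@[simp] lemma HC.one_c (y : K) : (1 : HC K G).c y = 1 := rfl

@[simp] lemma HC.inv_h (a : HC K G) (y : K) : (a⁻¹).h y = a.h.symm y := rfl

@[simp] lemma HC.inv_c (a : HC K G) (y : K) : (a⁻¹).c y = (a.c (a.h.symm y))⁻¹ := rfl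

instance HC.instGroup : Group (HC K G) :=
  Group.ofLeftAxioms
    (fun a b d => by
      ext y
      · simp
      · simp [mul_assoc])
    (fun a => by
      ext y
      · simp
      · simp)
    (fun a => by
      ext y
      · simp
      · simp)

/-- The action of `HC K G` on `K`. -/
instance HC.instAction : MulAction (HC K G) K where
  smul a y := a.h y
  one_smul _ := rfl
  mul_smul _ _ _ := rfl

@[simp] lemma HC.smul_def (a : HC K G) (y : K) : a • y = a.h y := rfl

end HC

/-! ### Labelled graphs and the space of paths -/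

/-- A graph with levels and labels in `G`. -/
structure Gr (G : Type) where
  O : Type
  E : Type
  cE : Countable E
  src : E → O
  tgt : E → O
  lev : O → ℕ
  root : O
  lev_lt : ∀ e, lev (src e) < lev (tgt e)
  val : E → G

namespace Gr

variable {G : Type} (S : Gr G)

/-- the end of a word which starts at `a` -/
def fin (a : S.O) (w : List S.E) : S.O := w.foldl (fun _ e => S.tgt e) a

/-- legal words from `a` -/
def Leg : S.O → List S.E → Prop
  | _, [] => True
  | a, e :: w => S.src e = a ∧ Leg (S.tgt e) w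

/-- the product of the labels -/
def pr [Group G] (w : List S.E) : G := (w.map S.val).prod

/-- Finite and infinite paths from the root, coded by the set of their initial words. -/
structure IsPath (y : List S.E → Bool) : Prop where
  nil : y [] = true
  pre : ∀ u w, u <+: w → y w = true → y u = true
  leg : ∀ w, y w = true → S.Leg S.root w
  lin : ∀ u w, y u = true → y w = true → u <+: w ∨ w <+: u

/-- The space of paths. -/
def Path : Type := {y : List S.E → Bool // S.IsPath y}

instance : TopologicalSpace S.Path := instTopologicalSpaceSubtype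

/-- `w` is an initial word of `y` -/
def Mem (w : List S.E) (y : S.Path) : Prop := y.1 w = true

/-- all initial words of `y` have end level at most `l` -/
def Bdd (l : ℕ) (y : S.Path) : Prop := ∀ w, S.Mem w y → S.lev (S.fin S.root w) ≤ l

/-- infinite paths -/
def Inf (y : S.Path) : Prop := ∀ l, ¬ S.Bdd l y

/-- `z` is obtained from `y` by replacing the initial word `r` by `r'` -/
def Rep (r r' : List S.E) (y z : S.Path) : Prop :=
  S.Mem r y ∧ S.Mem r' z ∧ ∀ t, S.Mem (r' ++ t) z ↔ S.Mem (r ++ t) y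

/-- `b` and `z` have cofinally many initial words with equal ends, and the quotients of the
products of the labels converge. -/
def Lim [Group G] [TopologicalSpace G] (b z : S.Path) (p : G) : Prop :=
  ∃ β ζ : ℕ → List S.E, (∀ n, S.Mem (β n) b) ∧ (∀ n, S.Mem (ζ n) z) ∧
    (∀ n, S.fin S.root (β n) = S.fin S.root (ζ n)) ∧
    (∀ n, β n <+: β (n + 1)) ∧ (∀ n, ζ n <+: ζ (n + 1)) ∧
    (∀ n, n ≤ (β n).length) ∧ (∀ n, n ≤ (ζ n).length) ∧
    Tendsto (fun n => S.pr (ζ n) * (S.pr (β n))⁻¹) atTop (𝓝 p)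

end Gr

/-! ### Systems: a graph with a point map to a `G`-space -/

/-- A labelled graph whose infinite paths are mapped to points of the `G`-space `X`. -/
structure Sys (G X : Type) [Group G] [TopologicalSpace G] [MulAction G X]
    [MeasurableSpace X] where
  S : Gr G
  P : S.Path → X
  meas : @Measurable {b : S.Path // S.Inf b} X (borel _) _ (fun b => P b.1)
  meet : ∀ x : X, ∃ g : G, ∃ b : S.Path, S.Inf b ∧ g • x = P b
  rep : ∀ (r r' : List S.E) (y z : S.Path), S.Inf y → S.Inf z → S.Rep r r' y z →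
    S.fin S.root r = S.fin S.root r' → P z = (S.pr r' * (S.pr r)⁻¹) • P y
  cl : ∀ (y z : S.Path) (zn : ℕ → S.Path) (g : G) (gn : ℕ → G), S.Inf y → S.Inf z →
    (∀ n, S.Inf (zn n)) → Tendsto zn atTop (𝓝 z) → Tendsto gn atTop (𝓝 g) →
    (∀ n, gn n • P y = P (zn n)) → g • P y = P z
  zz : ∀ (b b' : S.Path) (m : G), S.Inf b → S.Inf b' → m • P b = P b' →
    ∃ z : S.Path, S.Inf z ∧ (∃ p, S.Lim b z p) ∧ ∃ p, S.Lim b' z p

/-- The group of a system. -/
def Sys.Γ {G X : Type} [Group G] [TopologicalSpace G] [IsTopologicalGroup G] [MulAction G X]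
    [MeasurableSpace X] (Y : Sys G X) : Subgroup (HC Y.S.Path G) where
  carrier := {γ | (∀ l y, Y.S.Bdd l (γ.h y) ↔ Y.S.Bdd l y) ∧
    ∀ y, Y.S.Inf y → γ.c y • Y.P y = Y.P (γ.h y)}
  mul_mem' := by
    rintro a b ⟨ha, ha'⟩ ⟨hb, hb'⟩
    refine ⟨fun l y => by rw [HC.mul_h, ha, hb], fun y hy => ?_⟩
    have h2 : Y.S.Inf (b.h y) := fun l hl => hy l ((hb l y).1 hl)
    rw [HC.mul_c, mul_smul, hb' y hy, ha' _ h2, HC.mul_h]
  one_mem' := ⟨fun l y => Iff.rfl, fun y hy => by simp⟩
  inv_mem' := by
    rintro a ⟨ha, ha'⟩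
    refine ⟨fun l y => ?_, fun y hy => ?_⟩
    · have := ha l (a.h.symm y)
      rw [Homeomorph.apply_symm_apply] at this
      rw [HC.inv_h, this]
    · have h2 : Y.S.Inf (a.h.symm y) := by
        intro l hl
        have := (ha l (a.h.symm y)).2 hl
        rw [Homeomorph.apply_symm_apply] at this
        exact hy l this
      have h3 := ha' _ h2
      rw [Homeomorph.apply_symm_apply] at h3
      rw [HC.inv_c, HC.inv_h, inv_smul_eq_iff]
      exact h3.symm

/-! ### Good topologies for a `G`-space -/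

/-- The Vaught transform. -/
def Star {G X : Type} [TopologicalSpace G] [Group G] [MulAction G X] (O : Set X) (U : Set G) :
    Set X := {x | IsMeagre {g : G | g ∈ U ∧ g • x ∉ O}}

/-- Points which lie in the Vaught transform of each of their neighbourhoods. -/
def Core (G : Type) {X : Type} [TopologicalSpace G] [Group G] [MulAction G X]
    (t : TopologicalSpace X) : Set X :=
  {y | ∀ O : Set X, IsOpen[t] O → y ∈ O → ∃ U : Set G, IsOpen U ∧ (1 : G) ∈ U ∧ y ∈ Star O U}

/-- The properties of the topology `t`. -/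
structure Topo (G : Type) {X : Type} [TopologicalSpace G] [Group G] [MulAction G X]
    [MeasurableSpace X] (D : Subgroup G) (t : TopologicalSpace X) : Prop where
  pol : @PolishSpace X t
  bor : @BorelSpace X t _
  dcont : ∀ d ∈ D, @Continuous X X t t (fun x => d • x)
  star : ∃ (B : Set (Set X)) (V : Set (Set G)), @TopologicalSpace.IsTopologicalBasis X t B ∧
    B.Countable ∧ TopologicalSpace.IsTopologicalBasis V ∧ V.Countable ∧
    ∀ O ∈ B, ∀ U ∈ V, IsOpen[t] (Star O U)

/-- A complete separable metric space with an injection to the `G`-space `X` which meets every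
orbit and is closed under a dense countable subgroup `D`. -/
structure Good (G X : Type) [Group G] [TopologicalSpace G] [MulAction G X]
    [MeasurableSpace X] where
  D : Subgroup G
  cD : Countable D
  dD : Dense (D : Set G)
  Y : Type
  mY : MetricSpace Y
  cY : CompleteSpace Y
  sY : SecondCountableTopology Y
  nY : Nonempty Y
  aY : MulAction D Y
  cont : ∀ d : D, Continuous (fun y : Y => d • y)
  ι : Y → X
  inj : Function.Injective ι
  meas : @Measurable Y X (borel Y) _ ι
  smul : ∀ (d : D) (y : Y), ι (d • y) = (d : G) • ι y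
  meet : ∀ x : X, ∃ g : G, ∃ y : Y, g • x = ι y
  eff : ∀ (y z : Y) (m : G) (O : Set Y), m • ι y = ι z → IsOpen O → z ∈ O →
    ∀ᶠ m' in 𝓝 m, ∀ z' : Y, m' • ι y = ι z' → z' ∈ O
  cl : ∀ (y z : Y) (zn : ℕ → Y) (g : G) (gn : ℕ → G), Tendsto zn atTop (𝓝 z) →
    Tendsto gn atTop (𝓝 g) → (∀ n, gn n • ι y = ι (zn n)) → g • ι y = ι z

attribute [instance] Good.mY Good.cY Good.sY Good.nY Good.aY Good.cD

/-- A countable base and an exhaustion of `D` by finite sets. -/
structure Sch {G X : Type} [Group G] [TopologicalSpace G] [MulAction G X] [MeasurableSpace X]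
    (H : Good G X) where
  B : ℕ → Set H.Y
  opn : ∀ i, IsOpen (B i)
  ne : ∀ i, (B i).Nonempty
  zero : B 0 = univ
  base : ∀ (y : H.Y) (O : Set H.Y), IsOpen O → y ∈ O → ∃ i, y ∈ B i ∧ B i ⊆ O
  F : ℕ → Set H.D
  fin : ∀ n, (F n).Finite
  one : ∀ n, (1 : H.D) ∈ F n
  mul : ∀ n a b, a ∈ F n → b ∈ F n → a * b ∈ F (n + 1)
  all : ∀ d, ∃ n, d ∈ F n

namespace Sch

variable {G X : Type} [Group G] [TopologicalSpace G] [MulAction G X] [MeasurableSpace X]
  {H : Good G X} (C : Sch H)

/-- the edges of the graph -/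
def EP (e : (ℕ × ℕ) × H.D × (ℕ × ℕ)) : Prop :=
  e.1.2 < e.2.2.2 ∧
  closure ((fun y : H.Y => e.2.1 • y) '' C.B e.2.2.1) ⊆ C.B e.1.1 ∧
  (∀ δ ∈ C.F e.1.2, ∀ u ∈ C.B e.2.2.1, ∀ v ∈ C.B e.2.2.1,
    dist ((δ * e.2.1) • u) ((δ * e.2.1) • v) ≤ (1 / 2 : ℝ) ^ e.1.2) ∧
  ∀ δ ∈ C.F e.1.2, ∀ δ' ∈ C.F e.1.2, δ * δ' * e.2.1 ∈ C.F e.2.2.2

/-- the graph of a scheme -/
def gr : Gr G where
  O := ℕ × ℕ
  E := {e : (ℕ × ℕ) × H.D × (ℕ × ℕ) // C.EP e}
  cE := inferInstance
  src e := e.1.1
  tgt e := e.1.2.2
  lev o := o.2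
  root := (0, 0)
  lev_lt e := e.2.1
  val e := (e.1.2.1 : G)

/-- the product of the labels of a word, in `D` -/
def prD (w : List C.gr.E) : H.D := (w.map fun e => e.1.2.1).prod

/-- the open set of a word -/
def W (w : List C.gr.E) : Set H.Y :=
  (fun y : H.Y => C.prD w • y) '' C.B (C.gr.fin C.gr.root w).1

/-- `y` is the point of the path `b` -/
def Pt (b : C.gr.Path) (y : H.Y) : Prop := ∀ w, C.gr.Mem w b → y ∈ C.W w

end Sch

end Pool.Agent.H93.CP
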