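import Pool.Agent.H93.CP.Defs

/-!
# Targets of the board cpt_modules
-/

set_option autoImplicit false

open Set Filter Topology

namespace Pool.Agent.H93.CP

/-! ### Common notions -/

/-- open subgroups form a base at `1` -/
def NonArch (G : Type) [Group G] [TopologicalSpace G] : Prop :=
  ∀ U ∈ 𝓝 (1 : G), ∃ V : Subgroup G, IsOpen (V : Set G) ∧ (V : Set G) ⊆ U

/-- countably many orbits -/
def CMO (G X : Type) [Group G] [MulAction G X] : Prop :=
  ∃ A : Set X, A.Countable ∧ ∀ x : X, ∃ g : G, g • x ∈ A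

/-- perfectly many orbits -/
def PMO (G X : Type) [Group G] [MulAction G X] [MeasurableSpace X] : Prop :=
  ∃ f : (ℕ → Bool) → X, Measurable f ∧ ∀ u v, u ≠ v → ∀ g : G, g • f u ≠ f v

/-! ### A. The groups `HC K G` -/

/-- `HC K G` is a topological group which acts continuously on `K`. -/
def T_HTG : Prop :=
  ∀ (K G : Type) [TopologicalSpace K] [CompactSpace K] [T2Space K] [TopologicalSpace G] [Group G]
    [IsTopologicalGroup G],
    IsTopologicalGroup (HC K G) ∧ Continuous (fun p : HC K G × K => p.1.h p.2) ∧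
      (∀ y : K, Continuous (fun a : HC K G => a.c y))

/-- `HC K G` is Polish. -/
def T_HPO : Prop :=
  ∀ (K G : Type) [TopologicalSpace K] [CompactSpace K] [T2Space K] [SecondCountableTopology K]
    [TopologicalSpace G] [Group G] [IsTopologicalGroup G] [PolishSpace G],
    PolishSpace (HC K G)

/-- `HC K G` is non-archimedean if `K` is zero-dimensional and `G` is non-archimedean. -/
def T_HNA : Prop :=
  ∀ (K G : Type) [TopologicalSpace K] [CompactSpace K] [T2Space K] [TotallyDisconnectedSpace K]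
    [TopologicalSpace G] [Group G] [IsTopologicalGroup G],
    NonArch G → NonArch (HC K G)

/-- The translations of the Cantor space. -/
def T_XOR : Prop :=
  ∃ τ : (ℕ → Bool) → HC (ℕ → Bool) Unit, Continuous τ ∧ ∀ p, (τ p).h (fun _ => false) = p

/-- A continuous action of `Γ` on the compact space `K` is a continuous homomorphism to the group
of homeomorphisms. -/
def T_HOM : Prop :=
  ∀ (Γ K : Type) [TopologicalSpace Γ] [Group Γ] [IsTopologicalGroup Γ] [TopologicalSpace K]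
    [CompactSpace K] [T2Space K] [MulAction Γ K],
    Continuous (fun p : Γ × K => p.1 • p.2) →
    ∃ ρ : Γ →* HC K Unit, Continuous ρ ∧ ∀ γ y, (ρ γ).h y = γ • y

/-- Continuous maps to `HC K G`. -/
def T_HCO : Prop :=
  ∀ (Z K G : Type) [TopologicalSpace Z] [TopologicalSpace K] [CompactSpace K] [T2Space K]
    [TopologicalSpace G] (F : Z → HC K G),
    Continuous (fun p : Z × K => (F p.1).h p.2) → Continuous (fun p : Z × K => (F p.1).h.symm p.2) →
    Continuous (fun p : Z × K => (F p.1).c p.2) → Continuous F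

/-- A product with the Cantor space is the Cantor space. -/
def T_BRO : Prop :=
  ∀ (K : Type) [TopologicalSpace K] [CompactSpace K] [T2Space K] [SecondCountableTopology K]
    [TotallyDisconnectedSpace K] [Nonempty K], Nonempty (K × (ℕ → Bool) ≃ₜ (ℕ → Bool))

/-- From a compact zero-dimensional space to the Cantor space. -/
def T_CAN : Prop :=
  ∀ (K Γ : Type) [TopologicalSpace K] [CompactSpace K] [T2Space K] [SecondCountableTopology K]
    [TotallyDisconnectedSpace K] [Nonempty K] [MeasurableSpace K] [BorelSpace K]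
    [TopologicalSpace Γ] [Group Γ] [IsTopologicalGroup Γ]
    [PolishSpace Γ] [MulAction Γ K],
    Continuous (fun p : Γ × K => p.1 • p.2) →
    ∃ (Δ : Type) (_ : TopologicalSpace Δ) (_ : Group Δ) (_ : IsTopologicalGroup Δ)
      (_ : PolishSpace Δ) (_ : MulAction Δ (ℕ → Bool)),
      Continuous (fun p : Δ × (ℕ → Bool) => p.1 • p.2) ∧ (NonArch Γ → NonArch Δ) ∧
      (CMO Δ (ℕ → Bool) ↔ CMO Γ K) ∧ (PMO Δ (ℕ → Bool) ↔ PMO Γ K)

/-- countably many double cosets -/
def CMD {L : Type} [Group L] (H K : Subgroup L) : Prop :=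
  ∃ A : Set L, A.Countable ∧ ∀ x : L, ∃ h ∈ H, ∃ k ∈ K, h * x * k ∈ A

/-- perfectly many double cosets -/
def PMD {L : Type} [Group L] [MeasurableSpace L] (H K : Subgroup L) : Prop :=
  ∃ f : (ℕ → Bool) → L, Measurable f ∧ ∀ u v, u ≠ v → ∀ h ∈ H, ∀ k ∈ K, h * f u * k ≠ f v

/-- From the Cantor space to double cosets. -/
def T_DCO : Prop :=
  ∀ (Γ : Type) [TopologicalSpace Γ] [Group Γ] [IsTopologicalGroup Γ]
    [PolishSpace Γ] [MulAction Γ (ℕ → Bool)],
    Continuous (fun p : Γ × (ℕ → Bool) => p.1 • p.2) →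
    ∃ (L : Type) (_ : TopologicalSpace L) (_ : Group L) (_ : IsTopologicalGroup L)
      (_ : PolishSpace L) (_ : MeasurableSpace L) (_ : BorelSpace L) (H K : Subgroup L),
      IsClosed (H : Set L) ∧ IsClosed (K : Set L) ∧ (NonArch Γ → NonArch L) ∧
      (CMD H K ↔ CMO Γ (ℕ → Bool)) ∧ (PMD H K ↔ PMO Γ (ℕ → Bool))

/-! ### B. Paths -/

/-- The space of paths. -/
def T_PCO : Prop :=
  ∀ (G : Type) (S : Gr G), CompactSpace S.Path ∧ T2Space S.Path ∧
    SecondCountableTopology S.Path ∧ TotallyDisconnectedSpace S.Path ∧ Nonempty S.Path ∧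
    ∀ w, IsClopen {y : S.Path | S.Mem w y}

/-- Words and levels. -/
def T_PWD : Prop :=
  ∀ (G : Type) (S : Gr G),
    (∀ (y : S.Path) u w, S.Mem u y → S.Mem w y → u.length = w.length → u = w) ∧
    (∀ (y : S.Path) u w, S.Mem u y → S.Mem w y → u.length ≤ w.length → u <+: w) ∧
    (∀ (y : S.Path), S.Inf y ↔ ∀ n : ℕ, ∃ w, S.Mem w y ∧ w.length = n) ∧
    (∀ w, S.Leg S.root w → w.length ≤ S.lev (S.fin S.root w)) ∧
    (∀ u w, S.Leg S.root u → S.Leg S.root w → S.fin S.root u = S.fin S.root w → u <+: w → u = w) ∧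
    (∀ a u w, S.Leg a (u ++ w) ↔ S.Leg a u ∧ S.Leg (S.fin a u) w) ∧
    (∀ a u w, S.fin a (u ++ w) = S.fin (S.fin a u) w) ∧
    (∀ y z : S.Path, S.Inf y → (∀ n : ℕ, ∃ w, n ≤ w.length ∧ S.Mem w y ∧ S.Mem w z) → y = z)

/-- Bounded paths. -/
def T_PBD : Prop :=
  ∀ (G : Type) (S : Gr G), (∀ l, IsClosed {y : S.Path | S.Bdd l y}) ∧
    {y : S.Path | ¬ S.Inf y}.Countable ∧ @MeasurableSet S.Path (borel _) {y | S.Inf y}

/-- A path from an increasing sequence of words. -/
def T_PMK : Prop :=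
  ∀ (G : Type) (S : Gr G) (ζ : ℕ → List S.E), (∀ n, S.Leg S.root (ζ n)) →
    (∀ n, ζ n <+: ζ (n + 1)) → (∀ n, n ≤ (ζ n).length) →
    ∃ z : S.Path, S.Inf z ∧ ∀ n, S.Mem (ζ n) z

/-- Replacement of initial words. -/
def T_PRP : Prop :=
  ∀ (G : Type) (S : Gr G),
    (∀ (r r' : List S.E) (y : S.Path), S.Mem r y → S.Leg S.root r' →
      S.fin S.root r = S.fin S.root r' → ∃ z, S.Rep r r' y z) ∧
    (∀ (r r' : List S.E) (y z z' : S.Path), S.Rep r r' y z → S.Rep r r' y z' → z = z') ∧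
    (∀ (r r' : List S.E) (y z : S.Path), S.Rep r r' y z → S.Rep r' r z y) ∧
    (∀ (r r' r'' : List S.E) (y z x : S.Path), S.Rep r r' y z → S.Rep r' r'' z x →
      S.Rep r r'' y x) ∧
    (∀ (r r' t : List S.E) (y z : S.Path), S.Rep r r' y z → S.Mem (r ++ t) y →
      S.Rep (r ++ t) (r' ++ t) y z) ∧
    (∀ (r r' : List S.E) (y z : S.Path) (l : ℕ), S.fin S.root r = S.fin S.root r' →
      S.Rep r r' y z → (S.Bdd l z ↔ S.Bdd l y)) ∧
    (∀ (r r' w : List S.E) (y z : S.Path), S.Rep r r' y z → w.length ≤ r'.length →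
      (S.Mem w z ↔ w <+: r'))

/-- The exchange of two initial words. -/
def IsSwap {G : Type} [Group G] [TopologicalSpace G] (S : Gr G) (r r' : List S.E)
    (γ : HC S.Path G) : Prop :=
  (∀ y, S.Mem r y → S.Rep r r' y (γ.h y) ∧ γ.c y = S.pr r' * (S.pr r)⁻¹) ∧
  (∀ y, S.Mem r' y → S.Rep r' r y (γ.h y) ∧ γ.c y = S.pr r * (S.pr r')⁻¹) ∧
  (∀ y, ¬ S.Mem r y → ¬ S.Mem r' y → γ.h y = y ∧ γ.c y = 1)

/-- Swaps exist. -/
def T_SWP : Prop :=
  ∀ (G : Type) [Group G] [TopologicalSpace G] (S : Gr G) (r r' : List S.E),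
    S.Leg S.root r → S.Leg S.root r' → S.fin S.root r = S.fin S.root r' →
    ∃ γ : HC S.Path G, IsSwap S r r' γ

/-- Swaps lie in `Γ`. -/
def T_SWG : Prop :=
  ∀ (G X : Type) [Group G] [TopologicalSpace G] [IsTopologicalGroup G] [MulAction G X]
    [MeasurableSpace X] (Y : Sys G X) (r r' : List Y.S.E) (γ : HC Y.S.Path G),
    Y.S.fin Y.S.root r = Y.S.fin Y.S.root r' → IsSwap Y.S r r' γ → γ ∈ Y.Γ

/-- `Γ` is closed. -/
def T_GCL : Prop :=
  ∀ (G X : Type) [Group G] [TopologicalSpace G] [IsTopologicalGroup G] [PolishSpace G]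
    [MulAction G X] [MeasurableSpace X] (Y : Sys G X), IsClosed (Y.Γ : Set (HC Y.S.Path G))

/-- The sequence of products of swaps. -/
structure IsSeq {G : Type} [Group G] [TopologicalSpace G] (S : Gr G) (b z : S.Path)
    (β ζ : ℕ → List S.E) (γ : ℕ → HC S.Path G) : Prop where
  memb : ∀ n, S.Mem (β n) b
  memz : ∀ n, S.Mem (ζ n) z
  ends : ∀ n, S.fin S.root (β n) = S.fin S.root (ζ n)
  preb : ∀ n, β n <+: β (n + 1)
  prez : ∀ n, ζ n <+: ζ (n + 1)
  lenb : ∀ n, n ≤ (β n).length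
  lenz : ∀ n, n ≤ (ζ n).length
  rep : ∀ n y, S.Mem (β n) y → S.Rep (β n) (ζ n) y ((γ n).h y) ∧
    (γ n).c y = S.pr (ζ n) * (S.pr (β n))⁻¹
  onto : ∀ n y, S.Mem (ζ n) ((γ n).h y) → S.Mem (β n) y
  out : ∀ n y, ¬ S.Mem (β n) y → (γ (n + 1)).h y = (γ n).h y ∧ (γ (n + 1)).c y = (γ n).c y
  outz : ∀ n x, ¬ S.Mem (ζ n) x → (γ (n + 1)).h.symm x = (γ n).h.symm x
  val : ∀ n y, S.Mem (β n) y → ¬ S.Mem (β (n + 1)) y →
    (γ (n + 1)).c y = S.pr (ζ n) * (S.pr (β n))⁻¹ ∨
    (γ (n + 1)).c y = (S.pr (ζ n) * (S.pr (β n))⁻¹) *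
      (S.pr (ζ (n + 1)) * (S.pr (β (n + 1)))⁻¹)⁻¹ * (S.pr (ζ n) * (S.pr (β n))⁻¹)

/-- The sequence exists, in `Γ`. -/
def T_SQD : Prop :=
  ∀ (G X : Type) [Group G] [TopologicalSpace G] [IsTopologicalGroup G] [MulAction G X]
    [MeasurableSpace X] (Y : Sys G X) (b z : Y.S.Path) (β ζ : ℕ → List Y.S.E),
    (∀ n, Y.S.Mem (β n) b) → (∀ n, Y.S.Mem (ζ n) z) →
    (∀ n, Y.S.fin Y.S.root (β n) = Y.S.fin Y.S.root (ζ n)) →
    (∀ n, β n <+: β (n + 1)) → (∀ n, ζ n <+: ζ (n + 1)) →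
    (∀ n, n ≤ (β n).length) → (∀ n, n ≤ (ζ n).length) →
    ∃ γ : ℕ → HC Y.S.Path G, IsSeq Y.S b z β ζ γ ∧ ∀ n, γ n ∈ Y.Γ

/-- The limit of the homeomorphisms. -/
def T_LMH : Prop :=
  ∀ (G : Type) [Group G] [TopologicalSpace G] (S : Gr G) (b z : S.Path) (β ζ : ℕ → List S.E)
    (γ : ℕ → HC S.Path G), IsSeq S b z β ζ γ →
    ∃ h : S.Path ≃ₜ S.Path, h b = z ∧ ∀ n y, ¬ S.Mem (β n) y → h y = (γ n).h y

/-- The limit of the cocycles. -/
def T_LMC : Prop :=
  ∀ (G : Type) [Group G] [TopologicalSpace G] [IsTopologicalGroup G] (S : Gr G)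
    (b z : S.Path) (β ζ : ℕ → List S.E) (γ : ℕ → HC S.Path G) (p : G), IsSeq S b z β ζ γ →
    Tendsto (fun n => S.pr (ζ n) * (S.pr (β n))⁻¹) atTop (𝓝 p) →
    ∃ c : C(S.Path, G), c b = p ∧ ∀ n y, ¬ S.Mem (β n) y → c y = (γ n).c y

/-- Paths with cofinally many common ends and convergent quotients are in one orbit. -/
def T_LIM : Prop :=
  ∀ (G X : Type) [Group G] [TopologicalSpace G] [IsTopologicalGroup G] [MulAction G X]
    [MeasurableSpace X] (Y : Sys G X) (b z : Y.S.Path) (p : G), Y.S.Inf b → Y.S.Inf z →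
    Y.S.Lim b z p → ∃ γ ∈ Y.Γ, γ.h b = z

/-- The orbits of `Γ` on the infinite paths. -/
def T_ORB : Prop :=
  ∀ (G X : Type) [Group G] [TopologicalSpace G] [IsTopologicalGroup G] [MulAction G X]
    [MeasurableSpace X] (Y : Sys G X) (b b' : Y.S.Path), Y.S.Inf b → Y.S.Inf b' →
    ((∃ γ ∈ Y.Γ, γ.h b = b') ↔ ∃ g : G, g • Y.P b = Y.P b')

/-- The orbits of `Γ` and of `G`: countability. -/
def T_TRC : Prop :=
  ∀ (G X : Type) [Group G] [TopologicalSpace G] [IsTopologicalGroup G] [MulAction G X]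
    [MeasurableSpace X] (Y : Sys G X), CMO Y.Γ Y.S.Path ↔ CMO G X

/-- Perfectly many orbits of `G` give perfectly many orbits of `Γ`. -/
def T_TPA : Prop :=
  ∀ (G X : Type) [Group G] [TopologicalSpace G] [IsTopologicalGroup G] [PolishSpace G]
    [MeasurableSpace G] [BorelSpace G] [MeasurableSpace X] [StandardBorelSpace X] [MulAction G X]
    [MeasurableSMul₂ G X] (Y : Sys G X) [MeasurableSpace Y.S.Path] [BorelSpace Y.S.Path],
    PMO G X → PMO Y.Γ Y.S.Path

/-- Perfectly many orbits of `Γ` give perfectly many orbits of `G`. -/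
def T_TPB : Prop :=
  ∀ (G X : Type) [Group G] [TopologicalSpace G] [IsTopologicalGroup G] [MulAction G X]
    [MeasurableSpace X] (Y : Sys G X) [MeasurableSpace Y.S.Path] [BorelSpace Y.S.Path],
    PMO Y.Γ Y.S.Path → PMO G X

/-! ### C. Topology -/

/-- A countable dense subgroup. -/
def T_DCS : Prop :=
  ∀ (G : Type) [Group G] [TopologicalSpace G] [SecondCountableTopology G],
    ∃ D : Subgroup G, Countable D ∧ Dense (D : Set G)

/-- Countably many measurable sets can be made open. -/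
def T_TPS : Prop :=
  ∀ (X : Type) [MeasurableSpace X] (t : TopologicalSpace X), @PolishSpace X t →
    @BorelSpace X t _ → ∀ A : Set (Set X), A.Countable → (∀ s ∈ A, MeasurableSet s) →
    ∃ t' : TopologicalSpace X, t' ≤ t ∧ @PolishSpace X t' ∧ @BorelSpace X t' _ ∧
      ∀ s ∈ A, IsOpen[t'] s

/-- The Vaught transform. -/
def T_STM : Prop :=
  ∀ (G X : Type) [Group G] [TopologicalSpace G] [IsTopologicalGroup G] [PolishSpace G]
    [MeasurableSpace G] [BorelSpace G] [MeasurableSpace X] [StandardBorelSpace X] [MulAction G X]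
    [MeasurableSMul₂ G X],
    (∀ (O : Set X) (U : Set G), MeasurableSet O → IsOpen U → MeasurableSet (Star O U)) ∧
    (∀ (A : Set (Set X)) (U : Set G), A.Countable → Star (⋂₀ A) U = ⋂ O ∈ A, Star O U) ∧
    (∀ (O O' : Set X) (U U' : Set G), O ⊆ O' → U' ⊆ U → Star O U ⊆ Star O' U')

/-- The topology exists. -/
def T_TOP : Prop :=
  ∀ (G X : Type) [Group G] [TopologicalSpace G] [IsTopologicalGroup G] [PolishSpace G]
    [MeasurableSpace G] [BorelSpace G] [MeasurableSpace X] [StandardBorelSpace X] [MulAction G X]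
    [MeasurableSMul₂ G X] (D : Subgroup G), Countable D → ∃ t : TopologicalSpace X, Topo G D t

/-- Comeagrely many translates of a point are in the core. -/
def T_CME : Prop :=
  ∀ (G X : Type) [Group G] [TopologicalSpace G] [IsTopologicalGroup G] [PolishSpace G]
    [MeasurableSpace G] [BorelSpace G] [MeasurableSpace X] [StandardBorelSpace X] [MulAction G X]
    [MeasurableSMul₂ G X] (D : Subgroup G) (t : TopologicalSpace X), Topo G D t →
    ∀ x : X, IsMeagre {g : G | g • x ∉ Core G t}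

/-- The core is a `G_δ` set. -/
def T_CGD : Prop :=
  ∀ (G X : Type) [Group G] [TopologicalSpace G] [IsTopologicalGroup G] [PolishSpace G]
    [MeasurableSpace X] [MulAction G X] (D : Subgroup G) (t : TopologicalSpace X), Topo G D t →
    @IsGδ X t (Core G t)

/-- The core is invariant under `D`. -/
def T_CIN : Prop :=
  ∀ (G X : Type) [Group G] [TopologicalSpace G] [IsTopologicalGroup G] [PolishSpace G]
    [MeasurableSpace X] [MulAction G X] (D : Subgroup G) (t : TopologicalSpace X), Topo G D t →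
    ∀ d ∈ D, ∀ y ∈ Core G t, d • y ∈ Core G t

/-- The Effros property. -/
def T_CEF : Prop :=
  ∀ (G X : Type) [Group G] [TopologicalSpace G] [IsTopologicalGroup G] [PolishSpace G]
    [MeasurableSpace X] [MulAction G X] (D : Subgroup G) (t : TopologicalSpace X), Topo G D t →
    ∀ (y : X) (m : G) (O : Set X), y ∈ Core G t → m • y ∈ Core G t → IsOpen[t] O → m • y ∈ O →
      ∀ᶠ m' in 𝓝 m, m' • y ∈ Core G t → m' • y ∈ O

/-- Closedness. -/
def T_CCL : Prop :=
  ∀ (G X : Type) [Group G] [TopologicalSpace G] [IsTopologicalGroup G] [PolishSpace G]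
    [MeasurableSpace G] [BorelSpace G] [MeasurableSpace X] [StandardBorelSpace X] [MulAction G X]
    [MeasurableSMul₂ G X] (D : Subgroup G) (t : TopologicalSpace X), Topo G D t →
    ∀ (y z : X) (zn : ℕ → X) (g : G) (gn : ℕ → G), y ∈ Core G t → z ∈ Core G t →
      (∀ n, zn n ∈ Core G t) → Tendsto zn atTop (@nhds X t z) → Tendsto gn atTop (𝓝 g) →
      (∀ n, gn n • y = zn n) → g • y = z

/-- The good structure exists. -/
def T_GOO : Prop :=
  ∀ (G X : Type) [Group G] [TopologicalSpace G] [IsTopologicalGroup G] [PolishSpace G]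
    [MeasurableSpace G] [BorelSpace G] [MeasurableSpace X] [StandardBorelSpace X] [MulAction G X]
    [MeasurableSMul₂ G X] [Nonempty X], Nonempty (Good G X)

/-! ### C. The scheme -/

/-- The scheme exists. -/
def T_SCH : Prop :=
  ∀ (G X : Type) [Group G] [TopologicalSpace G] [MulAction G X] [MeasurableSpace X]
    (H : Good G X), Nonempty (Sch H)

/-- Nested open sets. -/
def T_NES : Prop :=
  ∀ (G X : Type) [Group G] [TopologicalSpace G] [MulAction G X] [MeasurableSpace X]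
    (H : Good G X) (C : Sch H),
    (∀ w, C.gr.pr w = (C.prD w : G)) ∧ (∀ u w, C.prD (u ++ w) = C.prD u * C.prD w) ∧
    (∀ w, IsOpen (C.W w)) ∧ (∀ w, (C.W w).Nonempty) ∧
    (∀ w, C.gr.Leg C.gr.root w → C.prD w ∈ C.F (C.gr.fin C.gr.root w).2) ∧
    (∀ u w, C.gr.Leg C.gr.root w → u <+: w → C.W w ⊆ C.W u) ∧
    (∀ w e, C.gr.Leg C.gr.root (w ++ [e]) → closure (C.W (w ++ [e])) ⊆ C.W w ∧
      ∀ u ∈ C.W (w ++ [e]), ∀ v ∈ C.W (w ++ [e]),
        dist u v ≤ (1 / 2 : ℝ) ^ (C.gr.fin C.gr.root w).2)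

/-- Small sets: the sets `W w` of a path shrink to its point. -/
def T_SML : Prop :=
  ∀ (G X : Type) [Group G] [TopologicalSpace G] [MulAction G X] [MeasurableSpace X]
    (H : Good G X) (C : Sch H) (b : C.gr.Path) (y : H.Y), C.gr.Inf b → C.Pt b y →
    ∀ O : Set H.Y, IsOpen O → y ∈ O → ∃ k : ℕ, ∀ w, C.gr.Mem w b → k ≤ w.length → C.W w ⊆ O

/-- Infinite paths have exactly one point. -/
def T_PTU : Prop :=
  ∀ (G X : Type) [Group G] [TopologicalSpace G] [MulAction G X] [MeasurableSpace X]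
    (H : Good G X) (C : Sch H) (b : C.gr.Path), C.gr.Inf b → ∃! y : H.Y, C.Pt b y

/-- Replacement and points. -/
def T_PTR : Prop :=
  ∀ (G X : Type) [Group G] [TopologicalSpace G] [MulAction G X] [MeasurableSpace X]
    (H : Good G X) (C : Sch H) (r r' : List C.gr.E) (b z : C.gr.Path) (y : H.Y),
    C.gr.Inf b → C.gr.Rep r r' b z → C.gr.fin C.gr.root r = C.gr.fin C.gr.root r' → C.Pt b y →
    C.Pt z ((C.prD r' * (C.prD r)⁻¹) • y)

/-- Points depend continuously on the path. -/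
def T_PTC : Prop :=
  ∀ (G X : Type) [Group G] [TopologicalSpace G] [MulAction G X] [MeasurableSpace X]
    (H : Good G X) (C : Sch H) (π : {b : C.gr.Path // C.gr.Inf b} → H.Y),
    (∀ b, C.Pt b.1 (π b)) → Continuous π

/-- Every point is the point of an infinite path. -/
def T_PTS : Prop :=
  ∀ (G X : Type) [Group G] [TopologicalSpace G] [MulAction G X] [MeasurableSpace X]
    (H : Good G X) (C : Sch H) (y : H.Y), ∃ b : C.gr.Path, C.gr.Inf b ∧ C.Pt b y

/-- The edge of a step. -/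
def T_STP : Prop :=
  ∀ (G X : Type) [Group G] [TopologicalSpace G] [MulAction G X] [MeasurableSpace X]
    (H : Good G X) (C : Sch H) (s : List C.gr.E) (b' : C.gr.Path) (y' v : H.Y) (q : G),
    C.gr.Leg C.gr.root s → C.gr.Inf b' → C.Pt b' y' → q • H.ι y' = H.ι v → v ∈ C.W s →
    ∀ N ∈ 𝓝 q, ∃ p' : H.D, (p' : G) ∈ N ∧ ∃ k : ℕ, ∀ w, C.gr.Mem w b' → k ≤ w.length →
      ∃ e : C.gr.E, C.gr.Leg C.gr.root (s ++ [e]) ∧
        C.gr.fin C.gr.root (s ++ [e]) = C.gr.fin C.gr.root w ∧ C.prD (s ++ [e]) = p' * C.prD w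

/-- The zigzag. -/
def T_ZIG : Prop :=
  ∀ (G X : Type) [Group G] [TopologicalSpace G] [IsTopologicalGroup G] [PolishSpace G]
    [MulAction G X] [MeasurableSpace X]
    (H : Good G X) (C : Sch H) (b b' : C.gr.Path) (y y' : H.Y) (m : G),
    C.gr.Inf b → C.gr.Inf b' → C.Pt b y → C.Pt b' y' → m • H.ι y = H.ι y' →
    ∃ z : C.gr.Path, C.gr.Inf z ∧ (∃ p, C.gr.Lim b z p) ∧ ∃ p, C.gr.Lim b' z p

/-- The system exists. -/
def T_SYS : Prop :=
  ∀ (G X : Type) [Group G] [TopologicalSpace G] [IsTopologicalGroup G] [PolishSpace G]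
    [MeasurableSpace G] [BorelSpace G] [MeasurableSpace X] [StandardBorelSpace X] [MulAction G X]
    [MeasurableSMul₂ G X] [Nonempty X], Nonempty (Sys G X)

/-! ### D. Results -/

/-- Compact spaces are the whole conjecture. -/
def T_ONE : Prop :=
  ∀ (G X : Type) [Group G] [TopologicalSpace G] [IsTopologicalGroup G] [PolishSpace G]
    [MeasurableSpace G] [BorelSpace G] [MeasurableSpace X] [StandardBorelSpace X] [MulAction G X]
    [MeasurableSMul₂ G X],
    ∃ (Δ : Type) (_ : TopologicalSpace Δ) (_ : Group Δ) (_ : IsTopologicalGroup Δ)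
      (_ : PolishSpace Δ) (_ : MulAction Δ (ℕ → Bool)),
      Continuous (fun p : Δ × (ℕ → Bool) => p.1 • p.2) ∧ (NonArch G → NonArch Δ) ∧
      (CMO Δ (ℕ → Bool) ↔ CMO G X) ∧ (PMO Δ (ℕ → Bool) ↔ PMO G X)

end Pool.Agent.H93.CP
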